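import Pool.Agent.H23.FC.Targets
import Pool.Agent.H13.FM.ROT

/-!
# Row KRO: the Epstein zeta function of weight `2 m` does not depend on the rotation
(copy of `Pool/Agent/H13/FM/ROT.lean`)
-/

set_option autoImplicit false

open MeasureTheory Set Filter
open scoped Real Matrix MatrixGroups Topology

namespace Pool.Agent.H72.FC

open Pool.Agent.H31.CN Pool.Agent.H89.FM Pool.Agent.H89.FC Pool.Agent.H23.FC
open Pool.Agent.H13.FM (exp_re exp_norm cos_pos' cos_le' mem_uIoc_abs rot rot_int rpow_exp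
  norm_cpow_le' inv_re sec cpow_inv_id)

/-- bound of the terms, with the power -/
theorem pbound (hPSB : T_PSBm) (m : ℤ) (n : ℕ) (L : AddSubgroup (ℤ × ℤ)) (x y K : ℝ) (hn : 1 ≤ n) (hL : L ∈ Ls n)
    (hy : 0 < y) (hK : 0 < K) (a : ℂ) : ∃ A c : ℝ, 0 ≤ A ∧ 0 < c ∧
    ∀ w : ℂ, 1 ≤ ‖w‖ → ‖w‖ ≤ K * w.re → Summable (fun v => ‖psm m n L x y w v‖) ∧
      (∑' v : ℤ × ℤ, ‖psm m n L x y w v‖) * ‖w ^ a‖ ≤ A * Real.exp (-(c * ‖w‖)) := by
  obtain ⟨C, c, hC, hc, h⟩ := hPSB m n L x y K hn hL hy hK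
  obtain ⟨A, hA, h'⟩ := rpow_exp a.re c hc
  refine ⟨C * Real.exp (π * |a.im|) * A, c / 2, by positivity, by positivity, fun w h1 h2 => ?_⟩
  obtain ⟨h3, h4⟩ := h w h1 h2
  refine ⟨h3, ?_⟩
  have hw : w ≠ 0 := by
    rintro rfl
    rw [norm_zero] at h1
    linarith
  calc (∑' v : ℤ × ℤ, ‖psm m n L x y w v‖) * ‖w ^ a‖
      ≤ (C * Real.exp (-(c * ‖w‖))) * (‖w‖ ^ a.re * Real.exp (π * |a.im|)) :=
        mul_le_mul h4 (norm_cpow_le' hw a) (norm_nonneg _) (by positivity)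
    _ = C * Real.exp (π * |a.im|) * (‖w‖ ^ a.re * Real.exp (-(c * ‖w‖))) := by ring
    _ ≤ C * Real.exp (π * |a.im|) * (A * Real.exp (-(c / 2 * ‖w‖))) :=
        mul_le_mul_of_nonneg_left (h' ‖w‖ h1) (by positivity)
    _ = _ := by ring

/-! ### Interchange -/

/-- the integrand -/
noncomputable def Fv (m : ℤ) (n : ℕ) (L : AddSubgroup (ℤ × ℤ)) (x y : ℝ) (s τ : ℂ) (v : ℤ × ℤ) (u : ℝ) : ℂ :=
  (psm m n L x y (τ * u) v * (τ * u) ^ s + psm m n L x y (τ⁻¹ * u) v * (τ⁻¹ * u) ^ (1 - s)) / u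

open Classical in
theorem term_eq (m : ℤ) (n : ℕ) (L : AddSubgroup (ℤ × ℤ)) (x y : ℝ) (s τ : ℂ) (v : ℤ × ℤ) :
    (if v ∈ L ∧ v ≠ 0 then an x y v ^ m * Kmc m.natAbs τ s ((qz x y v / n : ℝ) : ℂ) else 0) =
      ∫ u in Ioi (1 : ℝ), Fv m n L x y s τ v u := by
  by_cases h : v ∈ L ∧ v ≠ 0
  · rw [if_pos h]
    unfold Kmc Kmi Fv psm
    simp only [if_pos h]
    rw [← integral_const_mul]
    refine integral_congr_ae (Eventually.of_forall fun u => ?_)
    show _ = _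
    ring
  · rw [if_neg h]
    unfold Fv psm
    simp only [if_neg h, zero_mul, add_zero, zero_div, integral_zero]

theorem Fv_cont (m : ℤ) (n : ℕ) (L : AddSubgroup (ℤ × ℤ)) (x y : ℝ) (s τ : ℂ) (hτ : ‖τ‖ = 1) (hre : 0 < τ.re)
    (v : ℤ × ℤ) : ContinuousOn (Fv m n L x y s τ v) (Ioi (1 : ℝ)) := by
  have hp : ∀ t : ℂ, Continuous fun u : ℝ => psm m n L x y (t * u) v := by
    intro t
    unfold psm phm
    by_cases h : v ∈ L ∧ v ≠ 0
    · simp only [if_pos h]; fun_prop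
    · simp only [if_neg h]; exact continuous_const
  have hq : ∀ t a : ℂ, 0 < t.re → ContinuousOn (fun u : ℝ => (t * u) ^ a) (Ioi (1 : ℝ)) := by
    intro t a ht
    refine ContinuousOn.cpow (Continuous.continuousOn (by fun_prop)) continuousOn_const ?_
    intro u hu
    have hu' : (1 : ℝ) < u := hu
    left
    rw [Complex.re_mul_ofReal]
    exact mul_pos ht (by linarith)
  unfold Fv
  refine ContinuousOn.div (((hp τ).continuousOn.mul (hq τ s hre)).add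
    ((hp τ⁻¹).continuousOn.mul (hq τ⁻¹ (1 - s) (by rw [inv_re hτ]; exact hre))))
    (Complex.continuous_ofReal.continuousOn) ?_
  intro u hu
  have hu' : (1 : ℝ) < u := hu
  exact Complex.ofReal_ne_zero.mpr (by linarith)

theorem inter (hPSB : T_PSBm) (m : ℤ) (n : ℕ) (L : AddSubgroup (ℤ × ℤ)) (x y : ℝ) (s τ : ℂ) (hn : 1 ≤ n) (hL : L ∈ Ls n)
    (hy : 0 < y) (hτ : ‖τ‖ = 1) (hre : 0 < τ.re) :
    HasSum (fun v => ∫ u in Ioi (1 : ℝ), Fv m n L x y s τ v u)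
      (∫ u in Ioi (1 : ℝ), (Psm m n L x y (τ * u) * (τ * u) ^ s / u +
        Psm m n L x y (τ⁻¹ * u) * (τ⁻¹ * u) ^ (1 - s) / u)) := by
  have hK : 0 < 1 / τ.re := by positivity
  obtain ⟨A, c, hA, hc, h⟩ := pbound hPSB m n L x y _ hn hL hy hK s
  obtain ⟨A', c', hA', hc', h'⟩ := pbound hPSB m n L x y _ hn hL hy hK (1 - s)
  have hτ' : ‖τ⁻¹‖ = 1 := by rw [norm_inv, hτ, inv_one]
  have hs : ∀ u : ℝ, 1 < u → 1 ≤ ‖τ * u‖ ∧ ‖τ * u‖ ≤ 1 / τ.re * (τ * u).re := by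
    intro u hu
    obtain ⟨e1, e2⟩ := sec hτ (show 0 < u by linarith)
    rw [e1, e2]
    refine ⟨hu.le, le_of_eq ?_⟩
    field_simp
  have hs' : ∀ u : ℝ, 1 < u → 1 ≤ ‖τ⁻¹ * u‖ ∧ ‖τ⁻¹ * u‖ ≤ 1 / τ.re * (τ⁻¹ * u).re := by
    intro u hu
    obtain ⟨e1, e2⟩ := sec hτ' (show 0 < u by linarith)
    rw [e1, e2, inv_re hτ]
    refine ⟨hu.le, le_of_eq ?_⟩
    field_simp
  -- the sum of the norms
  have hsum : ∀ (Fs : Finset (ℤ × ℤ)) (u : ℝ), 1 < u → ∑ v ∈ Fs, ‖Fv m n L x y s τ v u‖ ≤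
      A * Real.exp (-c * u) + A' * Real.exp (-c' * u) := by
    intro Fs u hu
    have hu0 : 0 < u := by linarith
    obtain ⟨e1, _⟩ := sec hτ hu0
    obtain ⟨e1', _⟩ := sec hτ' hu0
    obtain ⟨h1, h2⟩ := h (τ * u) (hs u hu).1 (hs u hu).2
    obtain ⟨h1', h2'⟩ := h' (τ⁻¹ * u) (hs' u hu).1 (hs' u hu).2
    rw [e1] at h2
    rw [e1'] at h2'
    have h3 : ∀ v, ‖Fv m n L x y s τ v u‖ ≤ ‖psm m n L x y (τ * u) v‖ * ‖(τ * u) ^ s‖ +
        ‖psm m n L x y (τ⁻¹ * u) v‖ * ‖(τ⁻¹ * u) ^ (1 - s)‖ := by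
      intro v
      unfold Fv
      rw [norm_div, Complex.norm_real, Real.norm_eq_abs, abs_of_pos hu0]
      refine (div_le_self (norm_nonneg _) hu.le).trans ?_
      refine (norm_add_le _ _).trans ?_
      rw [norm_mul, norm_mul]
    calc ∑ v ∈ Fs, ‖Fv m n L x y s τ v u‖
        ≤ ∑ v ∈ Fs, (‖psm m n L x y (τ * u) v‖ * ‖(τ * u) ^ s‖ +
          ‖psm m n L x y (τ⁻¹ * u) v‖ * ‖(τ⁻¹ * u) ^ (1 - s)‖) :=
          Finset.sum_le_sum fun v _ => h3 v
      _ = (∑ v ∈ Fs, ‖psm m n L x y (τ * u) v‖) * ‖(τ * u) ^ s‖ +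
          (∑ v ∈ Fs, ‖psm m n L x y (τ⁻¹ * u) v‖) * ‖(τ⁻¹ * u) ^ (1 - s)‖ := by
          rw [Finset.sum_add_distrib, Finset.sum_mul, Finset.sum_mul]
      _ ≤ (∑' v, ‖psm m n L x y (τ * u) v‖) * ‖(τ * u) ^ s‖ +
          (∑' v, ‖psm m n L x y (τ⁻¹ * u) v‖) * ‖(τ⁻¹ * u) ^ (1 - s)‖ :=
          add_le_add
            (mul_le_mul_of_nonneg_right (h1.sum_le_tsum Fs fun _ _ => norm_nonneg _)
              (norm_nonneg _))
            (mul_le_mul_of_nonneg_right (h1'.sum_le_tsum Fs fun _ _ => norm_nonneg _)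
              (norm_nonneg _))
      _ ≤ A * Real.exp (-(c * u)) + A' * Real.exp (-(c' * u)) := add_le_add h2 h2'
      _ = _ := by rw [neg_mul, neg_mul]
  have hgi : IntegrableOn (fun u : ℝ => A * Real.exp (-c * u) + A' * Real.exp (-c' * u))
      (Ioi (1 : ℝ)) :=
    ((exp_neg_integrableOn_Ioi 1 hc).const_mul A).add
      ((exp_neg_integrableOn_Ioi 1 hc').const_mul A')
  have hint : ∀ v, Integrable (Fv m n L x y s τ v) (volume.restrict (Ioi (1 : ℝ))) := by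
    intro v
    refine Integrable.mono' hgi
      ((Fv_cont m n L x y s τ hτ hre v).aestronglyMeasurable measurableSet_Ioi) ?_
    refine (ae_restrict_iff' measurableSet_Ioi).mpr (Eventually.of_forall fun u hu => ?_)
    have := hsum {v} u hu
    simpa using this
  have hsummable : Summable fun v => ∫ u, ‖Fv m n L x y s τ v u‖ ∂(volume.restrict (Ioi (1 : ℝ))) := by
    refine summable_of_sum_le (c := ∫ u in Ioi (1 : ℝ),
      (A * Real.exp (-c * u) + A' * Real.exp (-c' * u))) (fun v => integral_nonneg fun _ =>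
        norm_nonneg _) fun Fs => ?_
    rw [← integral_finsetSum _ fun v _ => (hint v).norm]
    refine setIntegral_mono_on (integrable_finsetSum _ fun v _ => (hint v).norm) hgi
      measurableSet_Ioi fun u hu => hsum Fs u hu
  have hfin := hasSum_integral_of_summable_integral_norm hint hsummable
  have hcong : ∫ u in Ioi (1 : ℝ), ∑' v, Fv m n L x y s τ v u =
      ∫ u in Ioi (1 : ℝ), (Psm m n L x y (τ * u) * (τ * u) ^ s / u +
        Psm m n L x y (τ⁻¹ * u) * (τ⁻¹ * u) ^ (1 - s) / u) := by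
    refine setIntegral_congr_fun measurableSet_Ioi fun u hu => ?_
    have hu' : (1 : ℝ) < u := hu
    have h1 : HasSum (fun v => psm m n L x y (τ * u) v) (Psm m n L x y (τ * u)) :=
      (h (τ * u) (hs u hu').1 (hs u hu').2).1.of_norm.hasSum
    have h1' : HasSum (fun v => psm m n L x y (τ⁻¹ * u) v) (Psm m n L x y (τ⁻¹ * u)) :=
      (h' (τ⁻¹ * u) (hs' u hu').1 (hs' u hu').2).1.of_norm.hasSum
    have h2 := ((h1.mul_right ((τ * u) ^ s)).add (h1'.mul_right ((τ⁻¹ * u) ^ (1 - s)))).div_const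
      (u : ℂ)
    show ∑' v, Fv m n L x y s τ v u = _
    rw [← add_div]
    exact h2.tsum_eq
  rw [hcong] at hfin
  exact hfin

/-! ### The theorem -/

open Classical in
theorem pf_ROTm (hINV : T_INVm) (hPSB : T_PSBm) : T_ROTm := by
  intro m n L x y s τ hn hL hy hτ hre
  obtain ⟨hdiff, hinv⟩ := hINV m n L x y hn hL hy
  have hK : 0 < 1 / τ.re := by positivity
  have hτ0 : τ ≠ 0 := by rintro rfl; simp at hτ
  set θ : ℝ := τ.arg with hθd
  have hθ : |θ| < π / 2 := Complex.abs_arg_lt_pi_div_two_iff.mpr (Or.inl hre)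
  have hθ' : |(-θ)| < π / 2 := by rw [abs_neg]; exact hθ
  have hcos : Real.cos θ = τ.re := by rw [hθd, Complex.cos_arg hτ0, hτ, div_one]
  have eτ : Complex.exp (θ * Complex.I) = τ := by
    have := Complex.norm_mul_exp_arg_mul_I τ
    rw [hτ, Complex.ofReal_one, one_mul] at this
    exact this
  have eτ' : Complex.exp ((-θ : ℝ) * Complex.I) = τ⁻¹ := by
    rw [Complex.ofReal_neg, neg_mul, Complex.exp_neg, eτ]
  -- the two functions
  have dG : ∀ a : ℂ, DifferentiableOn ℂ (fun w => Psm m n L x y w * w ^ a) {w | 0 < w.re} := by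
    intro a
    refine hdiff.mul fun w hw => ?_
    exact (differentiableAt_id.cpow (differentiableAt_const a) (Or.inl hw)).differentiableWithinAt
  have bG : ∀ a : ℂ, ∃ A c : ℝ, 0 < c ∧ ∀ w : ℂ, 1 ≤ ‖w‖ → ‖w‖ * Real.cos θ ≤ w.re →
      ‖Psm m n L x y w * w ^ a‖ ≤ A * Real.exp (-(c * ‖w‖)) := by
    intro a
    obtain ⟨A, c, _, hc, h⟩ := pbound hPSB m n L x y _ hn hL hy hK a
    refine ⟨A, c, hc, fun w h1 h2 => ?_⟩
    obtain ⟨h3, h4⟩ := h w h1 (by rw [hcos] at h2; rw [one_div, inv_mul_eq_div, le_div_iff₀ hre]; exact h2)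
    rw [norm_mul]
    refine (mul_le_mul_of_nonneg_right ?_ (norm_nonneg _)).trans h4
    exact norm_tsum_le_tsum_norm h3
  obtain ⟨A, c, hc, hb⟩ := bG s
  obtain ⟨A', c', hc', hb'⟩ := bG (1 - s)
  have hb'' : ∀ w : ℂ, 1 ≤ ‖w‖ → ‖w‖ * Real.cos (-θ) ≤ w.re →
      ‖Psm m n L x y w * w ^ (1 - s)‖ ≤ A' * Real.exp (-(c' * ‖w‖)) := by
    rw [Real.cos_neg]; exact hb'
  have h0 : |(0 : ℝ)| < π / 2 := by rw [abs_zero]; positivity
  have hb0 : ∀ {B d : ℝ} {a : ℂ}, (∀ w : ℂ, 1 ≤ ‖w‖ → ‖w‖ * Real.cos θ ≤ w.re →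
      ‖Psm m n L x y w * w ^ a‖ ≤ B * Real.exp (-(d * ‖w‖))) →
      ∀ w : ℂ, 1 ≤ ‖w‖ → ‖w‖ * Real.cos 0 ≤ w.re →
      ‖Psm m n L x y w * w ^ a‖ ≤ B * Real.exp (-(d * ‖w‖)) := by
    intro B d a h w h1 h2
    refine h w h1 ?_
    rw [Real.cos_zero, mul_one] at h2
    calc ‖w‖ * Real.cos θ ≤ ‖w‖ * 1 :=
          mul_le_mul_of_nonneg_left (Real.cos_le_one θ) (norm_nonneg w)
      _ ≤ w.re := by rw [mul_one]; exact h2
  -- the integrals
  have r1 := rot (dG s) hc hθ hb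
  have r2 := rot (dG (1 - s)) hc' hθ' hb''
  have i1 := rot_int (dG s) hc hθ hb
  have i2 := rot_int (dG (1 - s)) hc' hθ' hb''
  have k1 := rot_int (dG s) hc h0 (hb0 hb)
  have k2 := rot_int (dG (1 - s)) hc' h0 (hb0 hb')
  rw [eτ] at r1 i1
  rw [eτ'] at r2 i2
  simp only [Complex.ofReal_zero, zero_mul, Complex.exp_zero, one_mul] at k1 k2
  have harc : ∫ y' in (0 : ℝ)..(-θ), (fun w => Psm m n L x y w * w ^ (1 - s))
      (Complex.exp (y' * Complex.I)) =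
      -∫ y' in (0 : ℝ)..θ, (fun w => Psm m n L x y w * w ^ s) (Complex.exp (y' * Complex.I)) := by
    have e1 : ∫ y' in (0 : ℝ)..θ, (fun w => Psm m n L x y w * w ^ s) (Complex.exp (y' * Complex.I)) =
        ∫ y' in (0 : ℝ)..θ, (fun w => Psm m n L x y w * w ^ (1 - s))
          (Complex.exp (((-y' : ℝ) : ℂ) * Complex.I)) := by
      refine intervalIntegral.integral_congr_ae (Eventually.of_forall fun y' hy' => ?_)
      have h3 : 0 < (Complex.exp (y' * Complex.I)).re := by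
        have := exp_re 0 y'
        simp only [Complex.ofReal_zero, zero_add, Real.exp_zero, one_mul] at this
        rw [this]
        exact (cos_pos' hθ).trans_le (cos_le' hθ (mem_uIoc_abs hy'))
      show Psm m n L x y (Complex.exp (y' * Complex.I)) * (Complex.exp (y' * Complex.I)) ^ s =
        Psm m n L x y (Complex.exp (((-y' : ℝ) : ℂ) * Complex.I)) *
          (Complex.exp (((-y' : ℝ) : ℂ) * Complex.I)) ^ (1 - s)
      rw [Complex.ofReal_neg, neg_mul, Complex.exp_neg, hinv _ h3, ← cpow_inv_id h3 s]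
      ring
    rw [e1, intervalIntegral.integral_comp_neg (fun y' : ℝ => (fun w => Psm m n L x y w * w ^ (1 - s))
      (Complex.exp ((y' : ℂ) * Complex.I))), neg_zero, ← intervalIntegral.integral_symm]
  rw [harc] at r2
  -- conclusion
  have hJ : ∀ τ' : ℂ, ‖τ'‖ = 1 → 0 < τ'.re →
      HasSum (fun v => if v ∈ L ∧ v ≠ 0 then an x y v ^ m * Kmc m.natAbs τ' s ((qz x y v / n : ℝ) : ℂ) else 0)
      (∫ u in Ioi (1 : ℝ), (Psm m n L x y (τ' * u) * (τ' * u) ^ s / u +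
        Psm m n L x y (τ'⁻¹ * u) * (τ'⁻¹ * u) ^ (1 - s) / u)) := by
    intro τ' h1 h2
    have := inter hPSB m n L x y s τ' hn hL hy h1 h2
    simpa only [← term_eq] using this
  have hE : Em m s n L x y = ∫ u in Ioi (1 : ℝ), (Psm m n L x y (τ * u) * (τ * u) ^ s / u +
        Psm m n L x y (τ⁻¹ * u) * (τ⁻¹ * u) ^ (1 - s) / u) := by
    have h1 := (hJ 1 (by simp) (by simp)).tsum_eq
    simp only [one_mul, inv_one] at h1
    rw [integral_add k1 k2] at h1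
    rw [integral_add i1 i2, r1, r2]
    unfold Em
    rw [h1]
    ring
  rw [hE]
  exact hJ τ hτ hre

end Pool.Agent.H72.FC
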